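import Pool.Agent.R165.Cof.K
import Pool.Agent.H554.Final
import Pool.Agent.D0H62.UG.Small

/-!
# Variants of cofin for Borel sigma-ideals: the three strict inequalities, unconditionally

(a), (b): a combinatorial hypothesis `SmallReaping R B` (some reaping family is smaller than the
groupwise density number) implies in ZFC that there are Borel `σ`-ideals on the Cantor space with
`cofin* < cofin⁻` and with `cofin⁻ < cofin`; and for suitable ground model objects `R`, `B` the
hypothesis holds in the extension by some forcing notion.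
(c): in ZFC some Borel `σ`-ideal satisfies `cofin < cofin⁺`.
-/

set_option autoImplicit false

namespace Pool.Agent.Results.MP_66ab92_lc.CofinForced

open Set Cardinal Ordinal
open Pool.Agent.R165.Cof Pool.Agent.H554 Pool.Agent.Helper669.Forcing

/-- The family of the infinite sets `B i` of natural numbers is reaping (every set of natural
numbers is constant on some `B i`), and `R` many groupwise dense families have a common
element. -/
def SmallReaping (R : Type) (B : R → Set ℕ) : Prop :=
  (∀ i, (B i).Infinite) ∧ Phi2 R B ∧ Phi3 R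

/-- `SmallReaping` in the extension by `P`. -/
def ForcedSmallReaping (P : Type) [Preorder P] (R : Type) (B : R → Set ℕ) : Set P :=
  fand (fground (∀ i, (B i).Infinite)) (fand (FPhi2 P R B) (FPhi3 P R))

theorem not_countable_cantor : ¬ Countable (ℕ → Bool) := by
  intro h
  obtain ⟨f, hf⟩ := exists_surjective_nat (ℕ → Bool)
  obtain ⟨n, hn⟩ := hf fun k => !(f k k)
  have := congrFun hn n
  simp at this

theorem not_countable_Y : ¬ Countable (ℕ → ℕ → ℕ) := by
  intro h
  obtain ⟨f, hf⟩ := exists_surjective_nat (ℕ → ℕ → ℕ)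
  obtain ⟨n, hn⟩ := hf fun k => fun j => f k k j + 1
  have := congrFun (congrFun hn n) 0
  omega

theorem partA (h : bnum < gnum) : ∃ I : Set (Set (ℕ → Bool)), IsBorelSigmaIdeal I ∧
    (∀ x, {x} ∈ I) ∧ cofinStar I < cofinMinus I := by
  let e : (ℕ → ℕ → ℕ) ≃ᵐ (ℕ → Bool) :=
    PolishSpace.measurableEquivOfNotCountable not_countable_Y not_countable_cantor
  refine ⟨pull e.toEquiv J1, pull_borel e J1_borel, pull_singleton _ J1_singleton, ?_⟩
  rw [cofinStar_pull, cofinMinus_pull]
  exact J1_lt h

theorem partB (h : bnum < gnum) : ∃ I : Set (Set (ℕ → Bool)), IsBorelSigmaIdeal I ∧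
    (∀ x, {x} ∈ I) ∧ cofinMinus I < cofin I := by
  have hY : ¬ Countable (ℕ × (ℕ → ℕ → ℕ)) := by
    intro h
    exact not_countable_Y (Function.Surjective.countable (f := Prod.snd)
      (Prod.snd_surjective (α := ℕ) (β := ℕ → ℕ → ℕ)))
  let e : (ℕ × (ℕ → ℕ → ℕ)) ≃ᵐ (ℕ → Bool) :=
    PolishSpace.measurableEquivOfNotCountable hY not_countable_cantor
  refine ⟨pull e.toEquiv J2, pull_borel e J2_borel, pull_singleton _ J2_singleton, ?_⟩
  rw [cofinMinus_pull, cofin_pull]
  exact J2_lt h

/-- It is consistent that (a) and (b) hold (for different ideals): a hypothesis implying this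
(first part) is forced (second part). Part (c) is a theorem of ZFC. -/
theorem result :
    (∀ (R : Type) (B : R → Set ℕ), SmallReaping R B →
      bnum < gnum ∧
      (∃ I : Set (Set (ℕ → Bool)), IsBorelSigmaIdeal I ∧ (∀ x, {x} ∈ I) ∧
        cofinStar I < cofinMinus I) ∧
      ∃ I : Set (Set (ℕ → Bool)), IsBorelSigmaIdeal I ∧ (∀ x, {x} ∈ I) ∧
        cofinMinus I < cofin I) ∧
    (∃ (R : Type) (B : R → Set ℕ) (P : Type) (_ : Preorder P),
      Nonempty P ∧ ∀ p : P, p ∈ ForcedSmallReaping P R B) ∧
    ∃ I : Set (Set (ℕ → Bool)), IsBorelSigmaIdeal I ∧ (∀ x, {x} ∈ I) ∧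
      cofin I < cofinPlus I := by
  refine ⟨fun R B h => ?_, ?_, ⟨J4, J4_borel, fun x => countable_singleton x, ?_⟩⟩
  · have h1 := Pool.Agent.D0H62.UG.bnum_lt_gnum B h.1 h.2.1 h.2.2
    exact ⟨h1, partA h1, partB h1⟩
  · obtain ⟨R, J, hJ, par, B, P, hP, hne, h⟩ := main_forced
    refine ⟨R, B, P, hP, hne, fun p => ?_⟩
    have h1 := h p
    exact ⟨Ground.inf h1.1, h1.2.2.1, h1.2.2.2.1⟩
  · rw [J4_plus]
    exact J4_cofin.trans_lt (WithTop.coe_lt_top _)

end Pool.Agent.Results.MP_66ab92_lc.CofinForced
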